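import Mathlib
import Pool.Agent.Lib.MP_ba0fa5_ag.AA.IfaceA

/-!
MP_ba0fa5_ag, Theorem A, module FLL: fundamental lemma, lower bound (Buchstab).
-/

set_option autoImplicit false

open Finset
open scoped Classical

namespace Pool.Agent.Lib.MP_ba0fa5_ag.AA.H64

theorem primesIn_succ (W z : ℕ) : primesIn W (z + 1) =
    if (z + 1).Prime ∧ W < z + 1 then insert (z + 1) (primesIn W z) else primesIn W z := by
  ext l
  unfold primesIn
  split_ifs with h
  · simp only [mem_filter, mem_Ioc, mem_insert]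
    constructor
    · rintro ⟨⟨h1, h2⟩, h3⟩
      rcases Nat.lt_or_ge z l with h4 | h4
      · left
        omega
      · right
        exact ⟨⟨h1, h4⟩, h3⟩
    · rintro (rfl | ⟨⟨h1, h2⟩, h3⟩)
      · exact ⟨⟨h.2, le_rfl⟩, h.1⟩
      · exact ⟨⟨h1, by omega⟩, h3⟩
  · simp only [mem_filter, mem_Ioc]
    constructor
    · rintro ⟨⟨h1, h2⟩, h3⟩
      refine ⟨⟨h1, ?_⟩, h3⟩
      by_contra h4
      have : l = z + 1 := by omega
      subst this
      exact h ⟨h3, h1⟩
    · rintro ⟨⟨h1, h2⟩, h3⟩
      exact ⟨⟨h1, by omega⟩, h3⟩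

theorem mem_primesIn {W z l : ℕ} : l ∈ primesIn W z ↔ W < l ∧ l ≤ z ∧ l.Prime := by
  unfold primesIn
  rw [mem_filter, mem_Ioc, and_assoc]

/-- Buchstab's identity for the products. -/
theorem telescope (W z : ℕ) :
    ∑ l ∈ primesIn W z, 1 / (l : ℝ) * VV W (l - 1) = 1 - VV W z := by
  induction z with
  | zero =>
    have h : primesIn W 0 = ∅ := by
      ext l
      rw [mem_primesIn]
      constructor
      · rintro ⟨h1, h2, -⟩
        omega
      · intro h
        exact absurd h (notMem_empty _)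
    unfold VV
    rw [h]
    simp
  | succ z ih =>
    have hn : z + 1 ∉ primesIn W z := by
      rw [mem_primesIn]
      omega
    by_cases h : (z + 1).Prime ∧ W < z + 1
    · have e1 : primesIn W (z + 1) = insert (z + 1) (primesIn W z) := by
        rw [primesIn_succ, if_pos h]
      have e2 : VV W (z + 1) = (1 - 1 / ((z + 1 : ℕ) : ℝ)) * VV W z := by
        unfold VV
        rw [e1, prod_insert hn]
      rw [e1, sum_insert hn, ih, e2, Nat.add_sub_cancel]
      ring
    · have e1 : primesIn W (z + 1) = primesIn W z := by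
        rw [primesIn_succ, if_neg h]
      have e2 : VV W (z + 1) = VV W z := by
        unfold VV
        rw [e1]
      rw [e1, ih, e2]

theorem VV_nonneg {W z : ℕ} : 0 ≤ VV W z := by
  unfold VV
  apply prod_nonneg
  intro l hl
  rw [mem_primesIn] at hl
  have : (1 : ℝ) ≤ l := by exact_mod_cast hl.2.2.one_lt.le
  rw [sub_nonneg, div_le_one (by positivity)]
  exact this

theorem VV_le_one {W z : ℕ} : VV W z ≤ 1 := by
  unfold VV
  apply prod_le_one
  · intro l hl
    rw [mem_primesIn] at hl
    have : (1 : ℝ) ≤ l := by exact_mod_cast hl.2.2.one_lt.le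
    rw [sub_nonneg, div_le_one (by positivity)]
    exact this
  · intro l _
    have : (0 : ℝ) ≤ 1 / (l : ℝ) := by positivity
    linarith

/-- the numbers whose first hit is `l` -/
noncomputable def AA' (W M : ℕ) (r : ℕ → ℕ) (l : ℕ) : Finset ℕ :=
  (range M).filter (fun w => w % l = r l ∧ ∀ l' ∈ primesIn W (l - 1), w % l' ≠ r l')

theorem mem_AA' {W M l w : ℕ} {r : ℕ → ℕ} : w ∈ AA' W M r l ↔
    w ∈ range M ∧ w % l = r l ∧ ∀ l' ∈ primesIn W (l - 1), w % l' ≠ r l' := by
  unfold AA'
  simp only [mem_filter]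

theorem buchstab (W z M : ℕ) (r : ℕ → ℕ) :
    M ≤ ((range M).filter (fun w => ∀ l ∈ primesIn W z, w % l ≠ r l)).card +
      ∑ l ∈ primesIn W z, (AA' W M r l).card := by
  have hsub : range M ⊆ ((range M).filter (fun w => ∀ l ∈ primesIn W z, w % l ≠ r l)) ∪
      (primesIn W z).biUnion (AA' W M r) := by
    intro w hw
    rw [mem_union]
    by_cases h : ∀ l ∈ primesIn W z, w % l ≠ r l
    · exact Or.inl (mem_filter.2 ⟨hw, h⟩)
    · right
      push Not at h
      set S := (primesIn W z).filter (fun l => w % l = r l) with hS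
      have hne : S.Nonempty := by
        obtain ⟨l, hl, hl2⟩ := h
        exact ⟨l, mem_filter.2 ⟨hl, hl2⟩⟩
      have hmin := S.min'_mem hne
      set l := S.min' hne with hl
      rw [hS, mem_filter] at hmin
      rw [mem_biUnion]
      refine ⟨l, hmin.1, mem_AA'.2 ⟨hw, hmin.2, ?_⟩⟩
      intro l' hl' heq
      rw [mem_primesIn] at hl'
      have h1 := mem_primesIn.1 hmin.1
      have h2 : l' ∈ S := by
        rw [hS, mem_filter, mem_primesIn]
        exact ⟨⟨hl'.1, by omega, hl'.2.2⟩, heq⟩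
      have h3 := S.min'_le l' h2
      have h4 := h1.2.2.pos
      omega
  calc M = (range M).card := (card_range M).symm
    _ ≤ _ := card_le_card hsub
    _ ≤ _ := (card_union_le _ _).trans (Nat.add_le_add_left card_biUnion_le _)

/-- solving `a + l w' = b mod l'` -/
theorem exists_class {l l' : ℕ} (hl : l.Prime) (hl' : l'.Prime) (hne : l' ≠ l) (a b : ℕ)
    (hb : b < l') : ∃ ρ < l', ∀ w : ℕ, w % l' = ρ → (a + l * w) % l' = b := by
  have : Fact l'.Prime := ⟨hl'⟩
  refine ⟨(((b : ZMod l') - a) * (l : ZMod l')⁻¹).val, ZMod.val_lt _, fun w hw => ?_⟩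
  have h1 : ((w : ℕ) : ZMod l') = ((b : ZMod l') - a) * (l : ZMod l')⁻¹ := by
    have h2 : ((w % l' : ℕ) : ZMod l') = ((b : ZMod l') - a) * (l : ZMod l')⁻¹ := by
      rw [hw, ZMod.natCast_val, ZMod.cast_id', id]
    rwa [ZMod.natCast_mod] at h2
  have hl0 : (l : ZMod l') ≠ 0 := by
    intro h
    rw [ZMod.natCast_eq_zero_iff] at h
    exact hne ((Nat.prime_dvd_prime_iff_eq hl' hl).1 h)
  have h3 : ((a + l * w : ℕ) : ZMod l') = (b : ZMod l') := by
    push_cast
    rw [h1]
    field_simp
    ring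
  rw [ZMod.natCast_eq_natCast_iff'] at h3
  rw [h3, Nat.mod_eq_of_lt hb]

theorem card_AA' {W M l : ℕ} {r : ℕ → ℕ} (hr : ∀ l, l.Prime → r l < l) (hl : l.Prime) :
    ∃ Ω : ℕ → Finset ℕ, (∀ l' ∈ primesIn W (l - 1), (Ω l').card = 1 ∧ ∀ x ∈ Ω l', x < l') ∧
      (AA' W M r l).card ≤ ((range (M / l + 1)).filter
        (fun w => ∀ l' ∈ primesIn W (l - 1), w % l' ∉ Ω l')).card := by
  have hex : ∀ l' : ℕ, l' ∈ primesIn W (l - 1) → ∃ ρ < l', ∀ w : ℕ, w % l' = ρ →
      (r l + l * w) % l' = r l' := by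
    intro l' hl'
    rw [mem_primesIn] at hl'
    have := hl.pos
    exact exists_class hl hl'.2.2 (by omega) (r l) (r l') (hr l' hl'.2.2)
  choose! ρ hρ1 hρ2 using hex
  refine ⟨fun l' => {ρ l'}, fun l' hl' => ⟨card_singleton _, ?_⟩, ?_⟩
  · intro x hx
    rw [mem_singleton] at hx
    rw [hx]
    exact hρ1 l' hl'
  · have hdec : ∀ w ∈ AA' W M r l, w = r l + l * (w / l) := by
      intro w hw
      have h1 := (mem_AA'.1 hw).2.1
      have h2 := Nat.mod_add_div w l
      rw [h1] at h2
      exact h2.symm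
    apply card_le_card_of_injOn (fun w => w / l)
    · intro w hw
      have hw' := hdec w hw
      obtain ⟨h1, h2, h3⟩ := mem_AA'.1 (mem_coe.1 hw)
      rw [mem_coe, mem_filter, mem_range]
      refine ⟨Nat.lt_succ_of_le (Nat.div_le_div_right (mem_range.1 h1).le), ?_⟩
      intro l' hl' hmem
      rw [mem_singleton] at hmem
      have h4 := hρ2 l' hl' (w / l) hmem
      rw [← hw'] at h4
      exact h3 l' hl' h4
    · intro w hw w' hw' heq
      have h1 := hdec w hw
      have h2 := hdec w' hw'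
      have heq' : w / l = w' / l := heq
      rw [h1, h2, heq']

/-- `t² exp(-κ t) ≤ 2 exp (1 - κ)` -/
theorem exp_bound {t κ : ℝ} (ht : 1 ≤ t) (hκ : 1 ≤ κ) :
    t * Real.exp (-κ * t) ≤ 2 / κ * (1 / t) := by
  have h1 : t ^ 2 ≤ 2 * Real.exp t := by
    have := Real.quadratic_le_exp_of_nonneg (by linarith : 0 ≤ t)
    nlinarith
  have h2 : Real.exp (-κ * t) * Real.exp t ≤ Real.exp (1 - κ) := by
    rw [← Real.exp_add]
    apply Real.exp_le_exp.2
    nlinarith
  have h3 : Real.exp (1 - κ) * κ ≤ 1 := by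
    have h4 := Real.add_one_le_exp (κ - 1)
    have h5 : Real.exp (1 - κ) * Real.exp (κ - 1) = 1 := by
      rw [← Real.exp_add]
      norm_num
    have h6 := Real.exp_pos (1 - κ)
    nlinarith
  have hκ0 : 0 < κ := by linarith
  have ht0 : 0 < t := by linarith
  rw [div_mul_div_comm, mul_one, le_div_iff₀ (by positivity)]
  have h7 := Real.exp_pos (-κ * t)
  calc t * Real.exp (-κ * t) * (κ * t) = t ^ 2 * Real.exp (-κ * t) * κ := by ring
    _ ≤ (2 * Real.exp t) * Real.exp (-κ * t) * κ := by gcongr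
    _ = 2 * ((Real.exp (-κ * t) * Real.exp t) * κ) := by ring
    _ ≤ 2 * (Real.exp (1 - κ) * κ) := by gcongr
    _ ≤ 2 := by linarith

theorem fll (hF : FluStmt) (hV : VbndStmt) (hM : Nmert1Stmt) : FllStmt := by
  intro ε hε
  obtain ⟨B₀, c, C, hc, hC, hF⟩ := hF
  obtain ⟨cv, Cv, hcv, hCv, hV⟩ := hV
  obtain ⟨Cm, hM⟩ := hM
  set K : ℝ := 2 * Cv / cv with hK
  have hK0 : 0 < K := by positivity
  set δ : ℝ := ε / (2 * (C * K * (1 + 2 * |Cm|))) with hδ
  have hδ0 : 0 < δ := by positivity
  set B : ℕ := B₀ + 3 + ⌈2 * (1 + C) / (cv * ε)⌉₊ + ⌈(1 + 2 / δ) / c⌉₊ with hB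
  refine ⟨B, fun W z M hW hz hM1 r hr => ?_⟩
  rcases Nat.lt_or_ge z W with hzW | hWz
  · -- trivial case
    have h0 : primesIn W z = ∅ := by
      ext l
      rw [mem_primesIn]
      constructor
      · rintro ⟨h1, h2, -⟩
        omega
      · intro h
        exact absurd h (notMem_empty _)
    have h1 : VV W z = 1 := by
      unfold VV
      rw [h0, prod_empty]
    have h2 : ((range M).filter (fun w => ∀ l ∈ primesIn W z, w % l ≠ r l)).card = M := by
      rw [h0]
      simp
    rw [h1, h2]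
    have : (0 : ℝ) ≤ M := Nat.cast_nonneg _
    nlinarith
  -- facts about B
  have hz' : (2 : ℝ) ≤ z := by exact_mod_cast hz
  have hlogz : 1 / 2 ≤ Real.log z := by
    have h1 := Real.log_le_log (by norm_num) hz'
    have := Real.log_two_gt_d9
    linarith
  have hlogz0 : 0 < Real.log z := by linarith
  have hB1 : 1 ≤ c * ((B : ℝ) - 1) ∧ 2 / δ ≤ c * ((B : ℝ) - 1) := by
    have h1 : (1 + 2 / δ) / c ≤ (⌈(1 + 2 / δ) / c⌉₊ : ℝ) := Nat.le_ceil _
    have h2 : (⌈(1 + 2 / δ) / c⌉₊ : ℝ) ≤ (B : ℝ) - 1 := by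
      have : ⌈(1 + 2 / δ) / c⌉₊ + 1 ≤ B := by omega
      have h3 : ((⌈(1 + 2 / δ) / c⌉₊ : ℝ)) + 1 ≤ B := by exact_mod_cast this
      linarith
    have h3 : (1 + 2 / δ) ≤ c * ((B : ℝ) - 1) := by
      have := h1.trans h2
      rw [div_le_iff₀ hc] at this
      linarith
    have h4 : 0 < 2 / δ := by positivity
    constructor <;> linarith
  set κ : ℝ := c * ((B : ℝ) - 1) with hκ
  have hB2 : 2 * (1 + C) / (cv * ε) ≤ 2 ^ (B - 2) := by
    have h1 : 2 * (1 + C) / (cv * ε) ≤ (⌈2 * (1 + C) / (cv * ε)⌉₊ : ℝ) := Nat.le_ceil _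
    have h2 : ⌈2 * (1 + C) / (cv * ε)⌉₊ ≤ 2 ^ (B - 2) := by
      calc ⌈2 * (1 + C) / (cv * ε)⌉₊ ≤ B - 2 := by omega
        _ ≤ 2 ^ (B - 2) := Nat.lt_two_pow_self.le
    have h3 : (⌈2 * (1 + C) / (cv * ε)⌉₊ : ℝ) ≤ 2 ^ (B - 2) := by exact_mod_cast h2
    exact h1.trans h3
  set V := VV W z with hVdef
  have hV0 : 0 ≤ V := VV_nonneg
  have hMr : ((z : ℝ)) ^ B ≤ M := by exact_mod_cast hM1
  have hM0 : (0 : ℝ) ≤ M := Nat.cast_nonneg _
  have hlogW : 1 ≤ Real.log W := by
    have h1 : (3 : ℝ) ≤ W := by exact_mod_cast hW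
    have h2 := Real.log_le_log (by norm_num) h1
    have h3 : 1 ≤ Real.log 3 := by
      rw [Real.le_log_iff_exp_le (by norm_num)]
      exact Real.exp_one_lt_d9.le.trans (by norm_num)
    linarith
  have hVlow : cv * Real.log W / Real.log z ≤ V := (hV W z hW hWz).1
  -- one prime
  have hone : ∀ l ∈ primesIn W z, ((AA' W M r l).card : ℝ) ≤
      M * (1 / (l : ℝ) * VV W (l - 1)) +
      M * (C * K * (2 / κ) * V / Real.log z * (Real.log l / l)) + (1 + C) := by
    intro l hl
    obtain ⟨hl1, hl2, hlp⟩ := mem_primesIn.1 hl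
    have hl5 : 4 ≤ l := by omega
    obtain ⟨Ω, hΩ, hcard⟩ := card_AA' (M := M) (W := W) hr hlp
    have hl0 : 0 < l := hlp.pos
    have hl0' : (0 : ℝ) < l := by exact_mod_cast hl0
    have hl4' : (4 : ℝ) ≤ l := by exact_mod_cast hl5
    have hlogl : 1 ≤ Real.log l := by
      have h1 : (3 : ℝ) ≤ l := by linarith
      have h2 := Real.log_le_log (by norm_num) h1
      have h3 : 1 ≤ Real.log 3 := by
        rw [Real.le_log_iff_exp_le (by norm_num)]
        exact Real.exp_one_lt_d9.le.trans (by norm_num)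
      linarith
    have hlogl0 : 0 < Real.log l := by linarith
    have hlz : Real.log l ≤ Real.log z := Real.log_le_log hl0' (by exact_mod_cast hl2)
    have hpow : l ^ B₀ ≤ M / l + 1 := by
      have h1 : l ^ (B₀ + 1) ≤ M := by
        calc l ^ (B₀ + 1) ≤ z ^ (B₀ + 1) := Nat.pow_le_pow_left hl2 _
          _ ≤ z ^ B := Nat.pow_le_pow_right (by omega) (by omega)
          _ ≤ M := hM1
      have h2 : l ^ B₀ ≤ M / l := by
        rw [Nat.le_div_iff_mul_le hl0]
        rwa [pow_succ] at h1
      omega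
    have h1 := hF l (M / l + 1) (by omega) hpow (primesIn W (l - 1)) Ω (by
      intro l' hl'
      obtain ⟨h1, h2⟩ := hΩ l' hl'
      obtain ⟨h3, h4, h5⟩ := mem_primesIn.1 hl'
      refine ⟨h5, ?_, by omega, h2, by omega, by omega⟩
      by_contra h6
      have h7 : l' = 4 := by omega
      rw [h7] at h5
      exact absurd h5 (by norm_num))
    have hprod : ∏ l' ∈ primesIn W (l - 1), (1 - ((Ω l').card : ℝ) / l') = VV W (l - 1) := by
      unfold VV
      apply prod_congr rfl
      intro l' hl'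
      rw [(hΩ l' hl').1, Nat.cast_one]
    rw [hprod] at h1
    set Vl := VV W (l - 1) with hVl
    have hVl0 : 0 ≤ Vl := VV_nonneg
    have hVl1 : Vl ≤ 1 := VV_le_one
    set Ml : ℝ := ((M / l + 1 : ℕ) : ℝ) with hMl
    have hMl1 : Ml ≤ M / l + 1 := by
      rw [hMl]
      push_cast
      have := @Nat.cast_div_le ℝ _ _ _ M l
      linarith
    have hMl2 : (M : ℝ) / l ≤ Ml := by
      rw [hMl, div_le_iff₀ hl0']
      have h2 : M ≤ (M / l + 1) * l := by
        have := Nat.lt_div_mul_add hl0 (a := M)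
        nlinarith
      exact_mod_cast h2
    have hMl0 : 0 < Ml := by
      rw [hMl]
      positivity
    -- the exponent
    have hE : Real.exp (-c * (Real.log Ml / Real.log l)) ≤
        Real.exp (-κ * (Real.log z / Real.log l)) := by
      apply Real.exp_le_exp.2
      have h2 : ((B : ℝ) - 1) * Real.log z ≤ Real.log Ml := by
        have h3 : (z : ℝ) ^ (B - 1) ≤ Ml := by
          refine le_trans ?_ hMl2
          rw [le_div_iff₀ hl0']
          calc (z : ℝ) ^ (B - 1) * l ≤ (z : ℝ) ^ (B - 1) * z := by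
                gcongr
            _ = (z : ℝ) ^ B := by
                rw [← pow_succ]
                congr 1
                omega
            _ ≤ M := hMr
        have h4 := Real.log_le_log (by positivity) h3
        rw [Real.log_pow] at h4
        have h5 : ((B - 1 : ℕ) : ℝ) = (B : ℝ) - 1 := by
          rw [Nat.cast_sub (by omega)]
          simp
        rwa [h5] at h4
      rw [hκ]
      have h3 : ((B : ℝ) - 1) * Real.log z / Real.log l ≤ Real.log Ml / Real.log l := by
        gcongr
      have h4 : c * (((B : ℝ) - 1) * Real.log z / Real.log l) ≤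
          c * (Real.log Ml / Real.log l) := mul_le_mul_of_nonneg_left h3 hc.le
      calc -c * (Real.log Ml / Real.log l) = -(c * (Real.log Ml / Real.log l)) := by ring
        _ ≤ -(c * (((B : ℝ) - 1) * Real.log z / Real.log l)) := by linarith
        _ = -(c * ((B : ℝ) - 1)) * (Real.log z / Real.log l) := by ring
    set t : ℝ := Real.log z / Real.log l with ht
    have ht1 : 1 ≤ t := by
      rw [ht, one_le_div hlogl0]
      exact hlz
    have hEt := exp_bound ht1 hB1.1
    set E := Real.exp (-κ * t) with hEdef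
    have hE0 : 0 < E := Real.exp_pos _
    have hE1 : E ≤ 1 := by
      rw [hEdef]
      apply Real.exp_le_one_iff.2
      nlinarith [hB1.1]
    -- Vl against V
    have hVlV : Vl ≤ K * t * V := by
      have h2 := (hV W (l - 1) hW (by omega)).2
      have h3 : 1 / 2 * Real.log l ≤ Real.log ((l - 1 : ℕ) : ℝ) := by
        have h4 : (l : ℝ) ≤ ((l - 1 : ℕ) : ℝ) ^ 2 := by
          have h5 : l ≤ (l - 1) ^ 2 := by
            obtain ⟨m, rfl⟩ : ∃ m, l = m + 1 := ⟨l - 1, by omega⟩
            rw [Nat.add_sub_cancel]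
            nlinarith
          exact_mod_cast h5
        have h6 := Real.log_le_log hl0' h4
        rw [Real.log_pow] at h6
        push_cast at h6 ⊢
        linarith
      have h4 : 0 < Real.log ((l - 1 : ℕ) : ℝ) := by linarith
      have hlW0 : 0 < Real.log W := by linarith
      calc Vl ≤ Cv * Real.log W / Real.log ((l - 1 : ℕ) : ℝ) := h2
        _ ≤ Cv * Real.log W / (1 / 2 * Real.log l) := by gcongr
        _ = K * t * (cv * Real.log W / Real.log z) := by
            rw [hK, ht]
            field_simp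
        _ ≤ K * t * V := by gcongr
    have hmain : M * (1 / (l : ℝ)) * (C * E) * Vl ≤
        M * (C * K * (2 / κ) * V / Real.log z * (Real.log l / l)) := by
      have h2 : (C * E) * Vl ≤ C * K * (2 / κ) * V / Real.log z * Real.log l := by
        calc (C * E) * Vl ≤ (C * E) * (K * t * V) := by gcongr
          _ = C * K * V * (t * E) := by ring
          _ ≤ C * K * V * (2 / κ * (1 / t)) := by gcongr
          _ = C * K * (2 / κ) * V / Real.log z * Real.log l := by
              rw [ht]
              field_simp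
      calc M * (1 / (l : ℝ)) * (C * E) * Vl = (M * (1 / (l : ℝ))) * ((C * E) * Vl) := by ring
        _ ≤ (M * (1 / (l : ℝ))) * (C * K * (2 / κ) * V / Real.log z * Real.log l) := by
            gcongr
        _ = M * (C * K * (2 / κ) * V / Real.log z * (Real.log l / l)) := by ring
    have hcard' : ((AA' W M r l).card : ℝ) ≤
        (((range (M / l + 1)).filter
          (fun w => ∀ l' ∈ primesIn W (l - 1), w % l' ∉ Ω l')).card : ℝ) := by
      exact_mod_cast hcard
    calc ((AA' W M r l).card : ℝ) ≤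
        (1 + C * Real.exp (-c * (Real.log Ml / Real.log l))) * Ml * Vl := hcard'.trans h1
      _ ≤ (1 + C * E) * (M / l + 1) * Vl := by gcongr
      _ = M * (1 / (l : ℝ) * Vl) + M * (1 / (l : ℝ)) * (C * E) * Vl + (1 + C * E) * Vl := by
          ring
      _ ≤ M * (1 / (l : ℝ) * Vl) +
          M * (C * K * (2 / κ) * V / Real.log z * (Real.log l / l)) + (1 + C) := by
          have h2 : (1 + C * E) * Vl ≤ (1 + C) := by
            calc (1 + C * E) * Vl ≤ (1 + C * 1) * 1 := by gcongr
              _ = 1 + C := by ring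
          linarith
  -- summation
  have hsum : (∑ l ∈ primesIn W z, ((AA' W M r l).card : ℝ)) ≤
      M * (1 - V) + M * (C * K * (2 / κ) * V / Real.log z *
        (∑ l ∈ primesIn W z, Real.log l / l)) + z * (1 + C) := by
    refine (sum_le_sum hone).trans ?_
    rw [sum_add_distrib, sum_add_distrib, ← mul_sum, telescope, ← mul_sum, ← mul_sum, sum_const,
      nsmul_eq_mul]
    have h1 : (primesIn W z).card ≤ z := by
      unfold primesIn
      refine (card_filter_le _ _).trans ?_
      rw [Nat.card_Ioc]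
      omega
    have h2 : ((primesIn W z).card : ℝ) ≤ z := by exact_mod_cast h1
    have h3 : ((primesIn W z).card : ℝ) * (1 + C) ≤ z * (1 + C) := by gcongr
    linarith
  have hmert : (∑ l ∈ primesIn W z, Real.log l / l) ≤ Real.log z * (1 + 2 * |Cm|) := by
    have h1 : (∑ l ∈ primesIn W z, Real.log l / l) ≤
        ∑ l ∈ (Icc 1 z).filter Nat.Prime, Real.log l / l := by
      apply sum_le_sum_of_subset_of_nonneg
      · intro l hl
        obtain ⟨h1, h2, h3⟩ := mem_primesIn.1 hl
        rw [mem_filter, mem_Icc]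
        exact ⟨⟨h3.one_lt.le, h2⟩, h3⟩
      · intro l _ _
        have : 0 ≤ Real.log (l : ℝ) := Real.log_natCast_nonneg l
        positivity
    have h2 := hM z (by omega)
    have h3 := (abs_le.1 h2).2
    have h4 := le_abs_self Cm
    have h5 := abs_nonneg Cm
    nlinarith
  have hbuch := buchstab W z M r
  have hbuch' : (M : ℝ) ≤ (((range M).filter (fun w => ∀ l ∈ primesIn W z, w % l ≠ r l)).card : ℝ) +
      ∑ l ∈ primesIn W z, ((AA' W M r l).card : ℝ) := by exact_mod_cast hbuch
  have hκ0 : 0 < κ := by linarith [hB1.1]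
  -- error 1
  have herr1 : M * (C * K * (2 / κ) * V / Real.log z * (∑ l ∈ primesIn W z, Real.log l / l)) ≤
      ε / 2 * (M * V) := by
    have h1 : C * K * (2 / κ) * V / Real.log z * (∑ l ∈ primesIn W z, Real.log l / l) ≤
        ε / 2 * V := by
      calc C * K * (2 / κ) * V / Real.log z * (∑ l ∈ primesIn W z, Real.log l / l)
          ≤ C * K * (2 / κ) * V / Real.log z * (Real.log z * (1 + 2 * |Cm|)) := by gcongr
        _ = (C * K * (1 + 2 * |Cm|)) * (2 / κ) * V := by
            field_simp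
        _ ≤ (C * K * (1 + 2 * |Cm|)) * δ * V := by
            gcongr
            rw [div_le_iff₀ hκ0]
            have := hB1.2
            rw [div_le_iff₀ hδ0] at this
            linarith
        _ = ε / 2 * V := by
            rw [hδ]
            field_simp
    calc _ ≤ M * (ε / 2 * V) := mul_le_mul_of_nonneg_left h1 hM0
      _ = _ := by ring
  -- error 2
  have herr2 : (z : ℝ) * (1 + C) ≤ ε / 2 * (M * V) := by
    have hzz : Real.log z ≤ z := by
      have := Real.log_le_sub_one_of_pos (by linarith : (0 : ℝ) < z)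
      linarith
    have h1 : cv / z ≤ V := by
      refine le_trans ?_ hVlow
      calc cv / z ≤ cv / Real.log z := by gcongr
        _ ≤ cv * Real.log W / Real.log z := by
            gcongr
            nlinarith
    have h2 : (z : ℝ) * 2 ^ (B - 2) * z ≤ M := by
      refine le_trans ?_ hMr
      calc (z : ℝ) * 2 ^ (B - 2) * z ≤ z * (z : ℝ) ^ (B - 2) * z := by gcongr
        _ = (z : ℝ) ^ B := by
            have : B = (B - 2) + 1 + 1 := by omega
            nth_rewrite 2 [this]
            rw [pow_succ, pow_succ]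
            ring
    have hz0 : (0 : ℝ) < z := by linarith
    have h3 : (z : ℝ) * 2 ^ (B - 2) * cv ≤ M * V := by
      calc (z : ℝ) * 2 ^ (B - 2) * cv = ((z : ℝ) * 2 ^ (B - 2) * z) * (cv / z) := by
            field_simp
        _ ≤ M * V := by gcongr
    have h4 : 2 * (1 + C) ≤ 2 ^ (B - 2) * (cv * ε) := by
      rwa [div_le_iff₀ (by positivity)] at hB2
    nlinarith
  have : (1 - ε) * M * V = M - (M * (1 - V)) - ε * (M * V) := by ring
  linarith

end Pool.Agent.Lib.MP_ba0fa5_ag.AA.H64
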